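import Mathlib
import Pool.Agent.Helper43x.PK.Main
import Pool.Agent.X303.KThms

/-!
# Parshin's conjecture for almost all families of Weil numbers

Let `K i` be finitely many CM fields and let `p` be a prime. A family of Weil numbers `π i` in `K i` for
`p ^ a` gives an isogeny class of abelian varieties over the field with `p ^ a` elements, and the class of
all smooth projective schemes generated by these abelian varieties and the supersingular ones.

Suppose that the `K i` are pairwise independent (for `i ≠ j`, and all embeddings `σ` of `K i` and `τ` of `K j`,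
some automorphism of the field of algebraic numbers is the complex conjugation on `σ (K i)` and the identity
on `τ (K j)`), and that each of them has an embedding in the field of `p`-adic numbers. Then the conjecture of
Parshin holds for almost all families of Weil numbers: the proportion of the exceptional families among
those for `p ^ a` is at most `N / ⌊a / h⌋`, where `N` is half the sum of the degrees of the `K i` and `h` is
the largest class number. There is no condition on the Galois groups of the `K i` or on the slopes.

In the starting result `AlmostAllSlopeTypes` the prime `p` splits completely in the fields, the absolute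
values of the weights are prescribed and only the CM types vary, the fields are of large degree and the
proportion is small if the degree of the irreducible pieces of the space of odd functions is large. Here the
fields are arbitrary and fixed (also of small degree), and the slopes are not prescribed.

More generally this is true if there are integers `n i v`, for the places `v` of `K i` above `p`, with
`n i v̄ = - n i v`, such that the functions `(i, σ) ↦ n i (e ∘ σ)` on the set of all embeddings `σ` of the
`K i` in the algebraic numbers, for all `p`-adic places `e` of the algebraic numbers, generate all odd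
functions. If this is not so, all separated families have exotic Tate classes (`MP_557161_ag.ZeroOneLaw`).
-/

set_option autoImplicit false

namespace Pool.Agent.Results.MP_27fd67_ag.AlmostAllFrobenius

open NumberField NumberField.IsCMField Pool.Agent.W495.TA Pool.Agent.W495.FM Pool.Agent.X303.TBDual

section families

variable {I : Type} {K : I → Type} [∀ i, Field (K i)]

/-- The `π i` are Weil numbers of weight one for `p ^ a`: algebraic integers all of whose complex
absolute values are `p ^ (a / 2)`. -/
def IsWeilFamily (p a : ℕ) (π : ∀ i, K i) : Prop :=
  ∀ i, IsIntegral ℤ (π i) ∧ ∀ φ : K i →+* ℂ, ‖φ (π i)‖ ^ 2 = (p : ℝ) ^ a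

/-- Each factor of the abelian variety `Y` over the field with `p ^ a` elements, `a = Y.a`, is supersingular (a
power of its Frobenius endomorphism is a power of the square root of `p ^ a`), or a power of its Frobenius
endomorphism is the image of a power of one of the `π i` under an embedding of `K i` in the CM field of the
factor (both are Weil numbers for the same power of `p`). So `Y` is isogenous, over an algebraic closure, to a
product of powers of the abelian varieties with the Frobenius elements `π i` and of a supersingular one. -/
def OfFamily {p : ℕ} [Fact p.Prime] {ν : PadicAlgCl p ≃+* ℂ} (π : ∀ i, K i) (b : ℕ) (Y : RedAV p ν) : Prop :=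
  ∀ k : Y.X.I, (∃ s : ℕ, 0 < s ∧ Y.π k ^ (2 * s) = ((p : (Y.X.factor k).E) ^ Y.a) ^ s) ∨
    ∃ (i : I) (θ : K i →+* (Y.X.factor k).E) (s t : ℕ), 0 < s ∧ 0 < t ∧ Y.a * s = b * t ∧
      Y.π k ^ s = θ (π i) ^ t

/-- The groups of motivic and of `ℓ`-adic homology of `X` are those of an abelian variety `Y` which belongs
to the family `π`. -/
def IsAbelianOfFamily {p : ℕ} [Fact p.Prime] (ν : PadicAlgCl p ≃+* ℂ) (π : ∀ i, K i) (b : ℕ) {Ω V : Type}
    [Field Ω] [CharZero Ω] (T : Homology Ω V) (X : V) : Prop :=
  ∃ (Y : RedAV p ν) (C : Cycles Ω Y) (D : Motivic C) (g : ℕ), OfFamily π b Y ∧ IsChow C ∧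
    IsMotivic D ∧ IsAbelian T X D g

/-- **Parshin's conjecture for the family `π`** of Weil numbers for `p ^ b`: all `K`-groups `K_m(X)`, `m ≥ 1`,
are torsion groups, for all smooth projective schemes `X` over finite fields of characteristic `p` in the
smallest class (`Generated`) that contains the abelian varieties in the family and is closed under direct
summands of sums of twists of motives, and under forming the third member of a triple of a scheme, a closed
subscheme and its complement. -/
def ParshinHolds (p : ℕ) [Fact p.Prime] (π : ∀ i, K i) (b : ℕ) : Prop :=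
  ∀ (ν : PadicAlgCl p ≃+* ℂ) (Ω : Type) [Field Ω] [IsAlgClosed Ω] [CharZero Ω] (V : Type)
    (T : Homology Ω V), IsHomology T → ∀ X : V, Generated T (IsAbelianOfFamily ν π b T) X →
    IsPure T X → ∀ (G : ℤ → Type) [∀ m, AddCommGroup (G m)], IsKTheory T X G →
    ∀ m : ℤ, 1 ≤ m → ∀ x : G m, IsOfFinAddOrder x

end families

section crit

/-- The embedding that is conjugate to `σ`. -/
noncomputable def conj {K : Type} [Field K] [NumberField K] [IsCMField K] {A : Type} [Field A]
    (σ : K →+* A) : K →+* A :=
  σ.comp (complexConj K : K →+* K)

variable {I : Type} [Fintype I] (K : I → Type) [∀ i, Field (K i)] [∀ i, NumberField (K i)]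
  [∀ i, IsCMField (K i)] (p : ℕ) [Fact p.Prime]

/-- The integers `n i y`, for the embeddings `y` of `K i` in the algebraic closure of the `p`-adic
numbers, depend only on the place of `K i` defined by `y`, and they change the sign if `y` is replaced by
the conjugate embedding. -/
def IsOddOnPlaces (n : ∀ i, (K i →+* PadicAlgCl p) → ℤ) : Prop :=
  (∀ i y, n i (conj y) = - n i y) ∧ ∀ i y y', (∀ z, ‖y z‖ = ‖y' z‖) → n i y = n i y'

/-- The embeddings of the `K i` in the field of algebraic numbers. -/
abbrev Emb : Type := Σ i, K i →+* AlgebraicClosure ℚ

variable {K p}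

/-- The function `(i, σ) ↦ n i (e ∘ σ)` of a `p`-adic place `e` of the field of algebraic numbers. -/
noncomputable def values (n : ∀ i, (K i →+* PadicAlgCl p) → ℤ) (e : AlgebraicClosure ℚ →+* PadicAlgCl p)
    (x : Emb K) : ℤ :=
  n x.1 (e.comp x.2)

variable (K p)

/-- The functions `(i, σ) ↦ n i (e ∘ σ)` of all `e` generate the odd functions: no odd function other
than zero is orthogonal to all of them. -/
def IsGenerating (n : ∀ i, (K i →+* PadicAlgCl p) → ℤ) : Prop :=
  ∀ b : Emb K → ℤ, (∀ x, b ⟨x.1, conj x.2⟩ = - b x) → (∀ e, ∑ x, b x * values n e x = 0) → b = 0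

/-- For `i ≠ j`, and all embeddings `σ` of `K i` and `τ` of `K j`, there is an automorphism of the field of
algebraic numbers that is the complex conjugation on `σ (K i)` and the identity on `τ (K j)`. -/
def ArePairwiseIndependent : Prop :=
  ∀ i j, i ≠ j → ∀ (σ : K i →+* AlgebraicClosure ℚ) (τ : K j →+* AlgebraicClosure ℚ),
    ∃ g : AlgebraicClosure ℚ ≃+* AlgebraicClosure ℚ,
      (g : AlgebraicClosure ℚ →+* AlgebraicClosure ℚ).comp σ = conj σ ∧
        (g : AlgebraicClosure ℚ →+* AlgebraicClosure ℚ).comp τ = τ

/-- For all `a`, and all `h` which are at least the class numbers of the `K i`, the proportion among the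
families of Weil numbers in the `K i` for `p ^ a` of those for which the conjecture of Parshin fails is at
most `N / ⌊a / h⌋`, where `N` is half the sum of the degrees of the `K i`. -/
def AlmostAllSatisfyParshin : Prop :=
  ∀ a h : ℕ, (∀ i, classNumber (K i) ≤ h) →
    {π : ∀ i, K i | IsWeilFamily p a π ∧ ¬ ParshinHolds p π a}.ncard * (a / h) ≤
      {π : ∀ i, K i | IsWeilFamily p a π}.ncard * ((∑ i, Module.finrank ℚ (K i)) / 2)

end crit

section proof

/-- families with generated Tate classes -/
theorem parshin_of {I : Type} [Fintype I] {K : I → Type} [∀ i, Field (K i)] [∀ i, NumberField (K i)]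
    [∀ i, IsCMField (K i)] {p : ℕ} [Fact p.Prime] {b : ℕ} (hb : 0 < b) {π : ∀ i, K i}
    (hπ : Helper43x.ZO.WeilTuple p b π) (hsep : Helper43x.ZO.Separated π)
    (hgen : Helper43x.ZO.Generated π (p ^ b)) : ParshinHolds p π b := by
  intro ν Ω _ _ _ V T hT X hX hpure G _ hG m hm x
  obtain ⟨_, halg⟩ : ∃ _ : Algebra ℚ (AlgebraicClosure ℚ),
      Algebra.IsAlgebraic ℚ (AlgebraicClosure ℚ) := ⟨_, AlgebraicClosure.isAlgebraic ℚ⟩
  exact Pool.Agent.X303.TBDual.parshin_K hT (Helper43x.PK.tb_family hb hπ
    (Helper43x.ZO.norel_of_generated hπ hsep hgen) hT hX) hpure hG (by omega) x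

end proof

/-- **Parshin's conjecture for almost all families of Weil numbers.** Let `K i` be finitely many CM fields
and let `p` be a prime; the sets of the families of Weil numbers in the `K i` are finite. If there are
integers attached to the places above `p` that are odd and generating, then the conjecture of Parshin holds
for the smooth projective schemes generated by the abelian varieties of almost all families of Weil numbers.
This is the case if the `K i` are pairwise independent and have embeddings in the field of `p`-adic
numbers. -/
theorem result (p : ℕ) [Fact p.Prime] {I : Type} [Fintype I] (K : I → Type) [∀ i, Field (K i)]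
    [∀ i, NumberField (K i)] [∀ i, IsCMField (K i)] :
    (∀ a : ℕ, {π : ∀ i, K i | IsWeilFamily p a π}.Finite) ∧
    ((∃ n, IsOddOnPlaces K p n ∧ IsGenerating K p n) → AlmostAllSatisfyParshin K p) ∧
    (ArePairwiseIndependent K → (∀ i, Nonempty (K i →+* ℚ_[p])) → AlmostAllSatisfyParshin K p) := by
  have key : Helper43x.ZO.Crit p K (AlgebraicClosure ℚ) → AlmostAllSatisfyParshin K p := by
    intro hc a h hh
    exact Helper43x.NF.almost_all K hc (fun a π => ParshinHolds p π a)
      (fun a π ha h1 h2 h3 => parshin_of ha h1 h2 h3) a h hh
  refine ⟨fun a => Helper43x.ZO.weil_finite_tuple p a, ?_, ?_⟩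
  · rintro ⟨n, ⟨h1, h2⟩, h3⟩
    exact key ⟨n, h1, h2, h3⟩
  · intro h1 h2
    obtain ⟨_, halg⟩ : ∃ _ : Algebra ℚ (AlgebraicClosure ℚ),
        Algebra.IsAlgebraic ℚ (AlgebraicClosure ℚ) := ⟨_, AlgebraicClosure.isAlgebraic ℚ⟩
    exact key (Helper43x.NF.crit_indep p h1 fun i => (h2 i).some)

end Pool.Agent.Results.MP_27fd67_ag.AlmostAllFrobenius
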