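import Mathlib
import Pool.Agent.Helper43x.PK.Main
import Pool.Agent.X303.KThms

/-!
# Parshin's conjecture for the schemes generated by abelian varieties with Frobenius elements in given fields

Let `K i` be finitely many CM fields with the properties

* for all `i` the Galois stable spaces of odd functions on the set of the embeddings of `K i` in the
  algebraic numbers are zero, or the space of all odd functions, or that of the odd functions invariant
  under an automorphism of `K i` other than the identity and the complex conjugation;
* for `i ≠ j`, and all embeddings `σ` of `K i` and `τ` of `K j`, some automorphism of the field of algebraic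
  numbers is the complex conjugation on `σ (K i)` and the identity on `τ (K j)`.

The first condition is satisfied for instance if the representation of the Galois group on the odd functions
is irreducible (this is so for the generic CM field of any given degree, for the cyclic fields whose degree is
a power of two, and for the quaternion fields of degree eight), and for the biquadratic fields.

Then for EVERY prime `p` and for all Weil numbers `π i` in `K i` (for the same power of `p`) which are
separated the conjecture of Parshin holds for all smooth projective schemes generated by the abelian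
varieties with the Frobenius elements `π i` and the supersingular ones: the groups `K_m(X)`, `m ≥ 1`,
are torsion groups. There is no condition on the slopes or on the decomposition of `p` in the fields.

The abelian varieties over finite fields are given as in the starting result `AlmostAllSlopeTypes`; the
properties of the theory of cycles that are used are the same, too.
-/

set_option autoImplicit false

namespace Pool.Agent.Results.MP_27fd67_ag.FieldsOfFrobenius

open NumberField NumberField.IsCMField Pool.Agent.W495.TA Pool.Agent.W495.FM Pool.Agent.X303.TBDual

section families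

variable {I : Type} {K : I → Type} [∀ i, Field (K i)]

/-- The `π i` are Weil numbers of weight one for `p ^ a`: algebraic integers all of whose complex
absolute values are `p ^ (a / 2)`. -/
def IsWeilFamily (p a : ℕ) (π : ∀ i, K i) : Prop :=
  ∀ i, IsIntegral ℤ (π i) ∧ ∀ φ : K i →+* ℂ, ‖φ (π i)‖ ^ 2 = (p : ℝ) ^ a

/-- For all positive `n` the complex conjugates of the `n`-th powers of all the `π i` are different:
the powers of `π i` generate `K i`, and they are not conjugate to those of `π j` for `j ≠ i`. -/
def IsSeparated (π : ∀ i, K i) : Prop :=
  ∀ n : ℕ, 0 < n → Function.Injective fun x : Σ i, K i →+* ℂ => x.2 (π x.1) ^ n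

/-- Each factor of the abelian variety `Y` over the field with `p ^ a` elements, `a = Y.a`, is supersingular (a
power of its Frobenius endomorphism is a power of the square root of `p ^ a`), or a power of its Frobenius
endomorphism is the image of a power of one of the `π i` under an embedding of `K i` in the CM field of the
factor (both are Weil numbers for the same power of `p`). So `Y` is isogenous, over an algebraic closure, to a
product of powers of the abelian varieties with the Frobenius elements `π i` and of a supersingular one. -/
def OfFamily {p : ℕ} [Fact p.Prime] {ν : PadicAlgCl p ≃+* ℂ} (π : ∀ i, K i) (b : ℕ) (Y : RedAV p ν) : Prop :=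
  ∀ k : Y.X.I, (∃ s : ℕ, 0 < s ∧ Y.π k ^ (2 * s) = ((p : (Y.X.factor k).E) ^ Y.a) ^ s) ∨
    ∃ (i : I) (θ : K i →+* (Y.X.factor k).E) (s t : ℕ), 0 < s ∧ 0 < t ∧ Y.a * s = b * t ∧
      Y.π k ^ s = θ (π i) ^ t

/-- The groups of motivic and of `ℓ`-adic homology of `X` are those of an abelian variety `Y` which belongs
to the family `π`. -/
def IsAbelianOfFamily {p : ℕ} [Fact p.Prime] (ν : PadicAlgCl p ≃+* ℂ) (π : ∀ i, K i) (b : ℕ) {Ω V : Type}
    [Field Ω] [CharZero Ω] (T : Homology Ω V) (X : V) : Prop :=
  ∃ (Y : RedAV p ν) (C : Cycles Ω Y) (D : Motivic C) (g : ℕ), OfFamily π b Y ∧ IsChow C ∧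
    IsMotivic D ∧ IsAbelian T X D g

/-- **Parshin's conjecture for the family `π`** of Weil numbers for `p ^ b`: all `K`-groups `K_m(X)`, `m ≥ 1`,
are torsion groups, for all smooth projective schemes `X` over finite fields of characteristic `p` in the
smallest class (`Generated`) that contains the abelian varieties in the family and is closed under direct
summands of sums of twists of motives, and under forming the third member of a triple of a scheme, a closed
subscheme and its complement. -/
def ParshinHolds (p : ℕ) [Fact p.Prime] (π : ∀ i, K i) (b : ℕ) : Prop :=
  ∀ (ν : PadicAlgCl p ≃+* ℂ) (Ω : Type) [Field Ω] [IsAlgClosed Ω] [CharZero Ω] (V : Type)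
    (T : Homology Ω V), IsHomology T → ∀ X : V, Generated T (IsAbelianOfFamily ν π b T) X →
    IsPure T X → ∀ (G : ℤ → Type) [∀ m, AddCommGroup (G m)], IsKTheory T X G →
    ∀ m : ℤ, 1 ≤ m → ∀ x : G m, IsOfFinAddOrder x

end families

section fields

/-- The field of algebraic numbers. -/
abbrev QBar : Type := AlgebraicClosure ℚ

variable (K : Type) [Field K] [NumberField K] [IsCMField K]

variable {K} in
/-- The embedding that is conjugate to `σ`. -/
noncomputable def conj (σ : K →+* QBar) : K →+* QBar :=
  σ.comp (complexConj K : K →+* K)

variable {K} in
/-- The function `f` on the embeddings changes the sign under complex conjugation. -/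
def IsOdd (f : (K →+* QBar) → ℚ) : Prop := ∀ σ, f (conj σ) = - f σ

variable {K} in
/-- A space of functions on the embeddings is stable under the Galois group. -/
def IsStable (W : Submodule ℚ ((K →+* QBar) → ℚ)) : Prop :=
  ∀ g : QBar ≃+* QBar, ∀ f ∈ W, (fun σ => f ((g : QBar →+* QBar).comp σ)) ∈ W

variable {K} in
/-- The space `W` consists of the odd functions that are invariant under the automorphism `s` of `K`. -/
def IsSpaceOf (s : K ≃+* K) (W : Submodule ℚ ((K →+* QBar) → ℚ)) : Prop :=
  ∀ f, f ∈ W ↔ IsOdd f ∧ ∀ σ, f (σ.comp (s : K →+* K)) = f σ

/-- Every stable space of odd functions is zero, or contains all odd functions, or consists of the odd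
functions that are invariant under an automorphism of `K` which is neither the identity nor the complex
conjugation. -/
def IsSmall : Prop :=
  ∀ W : Submodule ℚ ((K →+* QBar) → ℚ), (∀ f ∈ W, IsOdd f) → IsStable W →
    W = ⊥ ∨ (∀ f, IsOdd f → f ∈ W) ∨
      ∃ s : K ≃+* K, s ≠ RingEquiv.refl K ∧ (s : K →+* K) ≠ (complexConj K : K →+* K) ∧
        IsSpaceOf s W

/-- For all embeddings `σ` of `K` and `τ` of `K'` there is an automorphism of the field of algebraic
numbers that is the complex conjugation on `σ (K)` and the identity on `τ (K')`. -/
def AreIndependent (K' : Type) [Field K'] : Prop :=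
  ∀ (σ : K →+* QBar) (τ : K' →+* QBar), ∃ g : QBar ≃+* QBar,
    (g : QBar →+* QBar).comp σ = conj σ ∧ (g : QBar →+* QBar).comp τ = τ

end fields

section proof

/-- families with generated Tate classes -/
theorem parshin_of {I : Type} [Fintype I] {K : I → Type} [∀ i, Field (K i)] [∀ i, NumberField (K i)]
    [∀ i, IsCMField (K i)] {p : ℕ} [Fact p.Prime] {b : ℕ} (hb : 0 < b) {π : ∀ i, K i}
    (hπ : Helper43x.ZO.WeilTuple p b π) (hsep : Helper43x.ZO.Separated π)
    (hgen : Helper43x.ZO.Generated π (p ^ b)) : ParshinHolds p π b := by
  intro ν Ω _ _ _ V T hT X hX hpure G _ hG m hm x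
  obtain ⟨_, halg⟩ : ∃ _ : Algebra ℚ (AlgebraicClosure ℚ),
      Algebra.IsAlgebraic ℚ (AlgebraicClosure ℚ) := ⟨_, AlgebraicClosure.isAlgebraic ℚ⟩
  exact Pool.Agent.X303.TBDual.parshin_K hT (Helper43x.PK.tb_family hb hπ
    (Helper43x.ZO.norel_of_generated hπ hsep hgen) hT hX) hpure hG (by omega) x

end proof

/-- **Parshin's conjecture and fields of Frobenius elements.** Let `K i` be finitely many CM fields which are
small and pairwise independent. For all primes `p` and all separated families of Weil numbers `π i` in `K i`
for a power of `p` the groups `K_m(X)`, `m ≥ 1`, are torsion for all smooth projective schemes generated by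
the abelian varieties in the family. -/
theorem result {I : Type} [Fintype I] (K : I → Type) [∀ i, Field (K i)] [∀ i, NumberField (K i)]
    [∀ i, IsCMField (K i)] (h1 : ∀ i, IsSmall (K i))
    (h2 : ∀ i j, i ≠ j → AreIndependent (K i) (K j)) (p : ℕ) [Fact p.Prime] (b : ℕ) (hb : 0 < b)
    (π : ∀ i, K i) (hπ : IsWeilFamily p b π) (hsep : IsSeparated π) : ParshinHolds p π b :=
  parshin_of hb hπ hsep (Helper43x.NF.good_of_fields K ⟨h1, h2⟩ p Fact.out b π hπ hsep)

end Pool.Agent.Results.MP_27fd67_ag.FieldsOfFrobenius
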